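import Pool.Agent.Y859.SF.Stm

/-!
# SF-3B: the scales `N^θ ≤ t ≤ N^(θ + κ/20)` (job of helper859's project SF, MP_9a49ed_nt)
-/

set_option autoImplicit false

namespace Pool.Agent.Y4.SF

open Finset Pool.Agent.Y859.SF Filter Asymptotics

lemma ev_log (r : ℝ) (hr : 0 < r) :
    ∀ᶠ N : ℕ in atTop, 1 + Real.log (2 * (N : ℝ)) ^ 3 ≤ (N : ℝ) ^ r := by
  have h1 : (fun x : ℝ => Real.log x ^ (3 : ℝ)) =o[atTop] fun x => x ^ r :=
    isLittleO_log_rpow_rpow_atTop 3 hr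
  have hc : 0 < (1 / 2) / (2 : ℝ) ^ r := by positivity
  have h2 := h1.def hc
  have h3 : Tendsto (fun N : ℕ => 2 * (N : ℝ)) atTop atTop :=
    tendsto_natCast_atTop_atTop.const_mul_atTop two_pos
  have h4 := h3.eventually h2
  have h5 : Tendsto (fun N : ℕ => (N : ℝ) ^ r) atTop atTop :=
    (tendsto_rpow_atTop hr).comp tendsto_natCast_atTop_atTop
  filter_upwards [h4, h5.eventually_ge_atTop 2, eventually_ge_atTop 1] with N a1 a2 a3
  have hN : (1 : ℝ) ≤ N := by exact_mod_cast a3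
  have hlog : 0 ≤ Real.log (2 * (N : ℝ)) := Real.log_nonneg (by linarith)
  rw [Real.norm_of_nonneg (by positivity), Real.norm_of_nonneg (by positivity),
    Real.mul_rpow (by norm_num) (by positivity)] at a1
  have e1 : Real.log (2 * (N : ℝ)) ^ (3 : ℝ) = Real.log (2 * (N : ℝ)) ^ 3 := by
    exact_mod_cast Real.rpow_natCast _ 3
  rw [e1] at a1
  have e2 : (1 / 2) / (2 : ℝ) ^ r * ((2 : ℝ) ^ r * (N : ℝ) ^ r) = (N : ℝ) ^ r / 2 := by
    field_simp
  rw [e2] at a1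
  linarith

lemma Xpow {N κ : ℝ} (hN : 1 ≤ N) (n : ℕ) : (N ^ (κ / 100)) ^ n = N ^ (κ / 100 * n) := by
  rw [← Real.rpow_natCast, ← Real.rpow_mul (by linarith)]

lemma core {N κ θ t s m J L X Y z : ℝ} (hN : 1 ≤ N) (hκ : 0 < κ) (hκ1 : κ ≤ 1 / 100)
    (hθ1 : κ / 2 ≤ θ) (hθ2 : θ ≤ 511 / 1000) (hX : X = N ^ (κ / 100)) (hY : Y = N ^ θ)
    (hX1 : 100 ≤ X) (ht0 : 0 ≤ t) (ht : t ≤ N ^ (θ + κ / 20)) (hs0 : 0 ≤ s) (hs : s ≤ t * L)
    (hL : 1 + L ≤ X) (hm1 : N < m) (hm2 : m ≤ 2 * N) (hJ0 : 0 ≤ J) (hJ : J ≤ Y / 10)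
    (hz : z = N ^ ((1 + θ) / 2 - κ / 20)) :
    ((m / z) ^ 2 * ((t + s) / m) + 1) * ((6 * J + 6) * Real.sqrt ((t + s) / m) + 1) ≤ Y / 1000 ∧
      10000 ≤ Y ∧ 100 * Y ≤ N ∧ 13 * N < z ^ 2 ∧ t ≤ z ∧ s ≤ z ∧ 0 < z := by
  have hN0 : 0 < N := by linarith
  have hX0 : 0 < X := by linarith
  have hX1' : 1 ≤ X := by linarith
  have hY0 : 0 < Y := by rw [hY]; positivity
  have hz0 : 0 < z := by rw [hz]; positivity
  have hm0 : 0 < m := by linarith
  -- (F1)
  have f1 : N ^ (θ + κ / 20) = Y * X ^ 5 := by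
    rw [hX, Xpow hN, hY, ← Real.rpow_add hN0]
    congr 1
    push_cast
    ring
  have f2 : z ^ 2 * X ^ 10 = N * Y := by
    rw [hX, Xpow hN, hY, hz, ← Real.rpow_natCast, ← Real.rpow_mul hN0.le, ← Real.rpow_add hN0]
    nth_rewrite 2 [← Real.rpow_one N]
    rw [← Real.rpow_add hN0]
    congr 1
    push_cast
    ring
  have f3 : Y * X ^ 46 ≤ N := by
    rw [hX, Xpow hN, hY, ← Real.rpow_add hN0]
    nth_rewrite 2 [← Real.rpow_one N]
    refine Real.rpow_le_rpow_of_exponent_le hN ?_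
    push_cast
    linarith
  have f4 : X ^ 50 ≤ Y := by
    rw [hX, Xpow hN, hY]
    refine Real.rpow_le_rpow_of_exponent_le hN ?_
    push_cast
    linarith
  have f5 : Y * X ^ 6 ≤ z := by
    rw [hX, Xpow hN, hY, ← Real.rpow_add hN0, hz]
    refine Real.rpow_le_rpow_of_exponent_le hN ?_
    push_cast
    linarith
  have hts : t + s ≤ Y * X ^ 6 := by
    calc t + s ≤ t * (1 + L) := by linarith
      _ ≤ t * X := mul_le_mul_of_nonneg_left hL ht0
      _ ≤ (Y * X ^ 5) * X := mul_le_mul_of_nonneg_right (by rw [← f1]; exact ht) hX0.le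
      _ = Y * X ^ 6 := by ring
  have hts0 : 0 ≤ t + s := by linarith
  have x1 : 1 ≤ X ^ 36 := one_le_pow₀ hX1'
  have hXX : (10000 : ℝ) ≤ X ^ 2 := by nlinarith
  have g1 : X ^ 2 ≤ X ^ 50 := pow_le_pow_right₀ hX1' (by norm_num)
  have g2 : X ^ 1 ≤ X ^ 46 := pow_le_pow_right₀ hX1' (by norm_num)
  have hY1 : 10000 ≤ Y := by linarith
  -- first factor
  have k1 : (m / z) ^ 2 * ((t + s) / m) ≤ 2 * X ^ 16 := by
    have e : (m / z) ^ 2 * ((t + s) / m) = m * (t + s) / z ^ 2 := by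
      field_simp
    rw [e, div_le_iff₀ (by positivity)]
    have : 2 * X ^ 16 * z ^ 2 = 2 * (X ^ 6 * (N * Y)) := by
      rw [← f2]
      ring
    rw [this]
    calc m * (t + s) ≤ (2 * N) * (Y * X ^ 6) := mul_le_mul hm2 hts hts0 (by linarith)
      _ = _ := by ring
  -- second factor
  have k2 : Real.sqrt ((t + s) / m) ≤ 1 / X ^ 20 := by
    apply Real.sqrt_le_iff.2
    refine ⟨by positivity, ?_⟩
    rw [div_le_iff₀ hm0, div_pow, one_pow, ← pow_mul, div_mul_eq_mul_div, one_mul,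
      le_div_iff₀ (by positivity)]
    calc (t + s) * X ^ (20 * 2) ≤ (Y * X ^ 6) * X ^ (20 * 2) :=
          mul_le_mul_of_nonneg_right hts (by positivity)
      _ = Y * X ^ 46 := by ring
      _ ≤ N := f3
      _ ≤ m := hm1.le
  have k3 : (6 * J + 6) * Real.sqrt ((t + s) / m) ≤ Y / X ^ 20 := by
    calc (6 * J + 6) * Real.sqrt ((t + s) / m) ≤ Y * (1 / X ^ 20) :=
          mul_le_mul (by linarith) k2 (Real.sqrt_nonneg _) hY0.le
      _ = Y / X ^ 20 := by ring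
  have k4 : 0 ≤ (m / z) ^ 2 * ((t + s) / m) := by positivity
  have k5 : 0 ≤ (6 * J + 6) * Real.sqrt ((t + s) / m) := by positivity
  refine ⟨?_, hY1, ?_, ?_, ?_, ?_, hz0⟩
  · have l1 : X ^ 16 ≤ Y / X ^ 4 := by
      rw [le_div_iff₀ (by positivity)]
      calc X ^ 16 * X ^ 4 = X ^ 20 := by ring
        _ ≤ X ^ 50 := pow_le_pow_right₀ hX1' (by norm_num)
        _ ≤ Y := f4
    have l2 : X ^ 16 * (Y / X ^ 20) = Y / X ^ 4 := by
      field_simp
    have l3 : (1 : ℝ) ≤ X ^ 16 := one_le_pow₀ hX1'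
    have l4 : Y / X ^ 4 ≤ Y / 100000000 := by
      refine div_le_div_of_nonneg_left hY0.le (by norm_num) ?_
      nlinarith
    calc ((m / z) ^ 2 * ((t + s) / m) + 1) * ((6 * J + 6) * Real.sqrt ((t + s) / m) + 1)
        ≤ (3 * X ^ 16) * (Y / X ^ 20 + 1) :=
          mul_le_mul (by linarith) (by linarith) (by linarith) (by positivity)
      _ = 3 * (X ^ 16 * (Y / X ^ 20)) + 3 * X ^ 16 := by ring
      _ ≤ 3 * (Y / X ^ 4) + 3 * (Y / X ^ 4) := by rw [l2]; linarith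
      _ ≤ Y / 1000 := by linarith
  · calc 100 * Y ≤ X ^ 1 * Y := mul_le_mul_of_nonneg_right (by simpa using hX1) hY0.le
      _ ≤ X ^ 46 * Y := mul_le_mul_of_nonneg_right g2 hY0.le
      _ = Y * X ^ 46 := by ring
      _ ≤ N := f3
  · have l1 : X ^ 11 ≤ Y := (pow_le_pow_right₀ hX1' (by norm_num)).trans f4
    have l2 : N * (X ^ 10 * X) ≤ z ^ 2 * X ^ 10 := by
      rw [f2]
      refine mul_le_mul_of_nonneg_left ?_ hN0.le
      calc X ^ 10 * X = X ^ 11 := by ring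
        _ ≤ Y := l1
    have l3 : N * X ≤ z ^ 2 := by
      have : (N * X) * X ^ 10 ≤ z ^ 2 * X ^ 10 := by
        calc (N * X) * X ^ 10 = N * (X ^ 10 * X) := by ring
          _ ≤ _ := l2
      exact le_of_mul_le_mul_right this (by positivity)
    nlinarith
  · linarith
  · linarith

theorem t_3B (h1 : S_SMB) (h2 : S_PP) (h3 : S_BIG) (h4 : S_WIN) (h5 : S_S2) : S_3B := by
  intro κ θ ε hκ hκ1 hθ1 hθ2 hε
  obtain ⟨N1, H1⟩ := h1 θ (κ / 20) (ε / 100) (1 / 1000) (by positivity) (by linarith)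
    (by linarith) (by positivity) (by norm_num)
  obtain ⟨N2, H2⟩ := h2 (ε / 100) (1 / 1000) (by positivity) (by norm_num)
  obtain ⟨N3, H3⟩ := h3 (1 / 1000) (by norm_num)
  obtain ⟨m0, H5⟩ := h5
  have hκ' : 0 < κ / 100 := by positivity
  have hT : Tendsto (fun N : ℕ => (N : ℝ) ^ (κ / 100)) atTop atTop :=
    (tendsto_rpow_atTop hκ').comp tendsto_natCast_atTop_atTop
  obtain ⟨N4, H4⟩ := eventually_atTop.1 ((ev_log (κ / 100) hκ').and (hT.eventually_ge_atTop 100))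
  refine ⟨N1 + N2 + N3 + m0 + N4 + 1, fun N hN => ?_⟩
  have hN1 : (1 : ℝ) ≤ N := by
    have : 1 ≤ N := by omega
    exact_mod_cast this
  have hN0 : (0 : ℝ) < N := by linarith
  obtain ⟨hlog, hX⟩ := H4 N (by omega)
  set Y : ℝ := (N : ℝ) ^ θ with hY
  have hY0 : 0 < Y := by positivity
  set J : ℕ := ⌊Y / 10⌋₊ with hJ
  have hJle : (J : ℝ) ≤ Y / 10 := Nat.floor_le (by positivity)
  -- a first use of `core` with trivial data
  obtain ⟨-, hY1, hY2, -, -, -, -⟩ := core (N := N) (κ := κ) (θ := θ) (t := 0) (s := 0)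
    (m := 2 * N) (J := 0) (L := 0) hN1 hκ hκ1 hθ1 hθ2 rfl rfl hX le_rfl (by positivity) le_rfl
    (by simp) (by linarith) (by linarith) le_rfl le_rfl (by positivity) rfl
  rw [← hY] at hY1 hY2
  have hJge : Y / 20 ≤ J := by
    have := Nat.lt_floor_add_one (Y / 10)
    rw [← hJ] at this
    linarith
  have hJleY : (J : ℝ) ≤ Y := by linarith
  have hJ1 : 1 ≤ J := by
    have : (1 : ℝ) ≤ J := by linarith
    exact_mod_cast this
  have hJN : J ≤ N := by
    have : (J : ℝ) ≤ N := by linarith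
    exact_mod_cast this
  obtain ⟨B1, c1, K1⟩ := H1 N (by omega) J (by rw [← hY]; exact hJge) (by rw [← hY]; exact hJleY)
    1 (by norm_num)
  obtain ⟨B5, c5, K5⟩ := H1 N (by omega) J (by rw [← hY]; exact hJge) (by rw [← hY]; exact hJleY)
    5 (by norm_num)
  obtain ⟨C1, d1, L1⟩ := H2 N (by omega) J hJ1 hJN 1 (by norm_num) (by norm_num)
  obtain ⟨C5, d5, L5⟩ := H2 N (by omega) J hJ1 hJN 5 (by norm_num) (by norm_num)
  set U : Finset ℕ := (B1 ∪ B5) ∪ (C1 ∪ C5) with hU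
  have hUc : (U.card : ℝ) ≤ 4 * (ε / 100 * N) := by
    have a1 : U.card ≤ (B1.card + B5.card) + (C1.card + C5.card) :=
      (card_union_le _ _).trans (add_le_add (card_union_le _ _) (card_union_le _ _))
    have a2 : (U.card : ℝ) ≤ (B1.card + B5.card) + (C1.card + C5.card) := by exact_mod_cast a1
    linarith
  refine ⟨U.biUnion fun M => Icc (6 * (M + 1 + J)) (6 * (M + 1 + J) + 5), ?_, ?_⟩
  · have a1 : (U.biUnion fun M => Icc (6 * (M + 1 + J)) (6 * (M + 1 + J) + 5)).card ≤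
        U.card * 6 := by
      refine card_biUnion_le_card_mul _ _ _ fun M _ => ?_
      rw [Nat.card_Icc]
      omega
    have a2 : ((U.biUnion fun M => Icc (6 * (M + 1 + J)) (6 * (M + 1 + J) + 5)).card : ℝ) ≤
        U.card * 6 := by exact_mod_cast a1
    have a3 : 0 ≤ ε * N := by positivity
    linarith
  · rintro m hm1 hm2 ⟨b, y, y', hrep, ht1, ht2⟩
    by_contra hcon
    have hm1' : (N : ℝ) < m := by exact_mod_cast hm1
    have hm2' : (m : ℝ) ≤ 2 * N := by exact_mod_cast hm2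
    set M : ℕ := m / 6 - 1 - J with hM
    -- size of `J` compared with `m`
    have hJm : 6 * J + 12 ≤ m := by
      have : 6 * (J : ℝ) + 12 ≤ m := by linarith
      exact_mod_cast this
    have hMm : M + 1 + J = m / 6 := by omega
    have hmem : m ∈ Icc (6 * (M + 1 + J)) (6 * (M + 1 + J) + 5) := by
      rw [mem_Icc, hMm]
      omega
    have hMU : M ∉ U := fun h => hcon (mem_biUnion.2 ⟨M, h, hmem⟩)
    simp only [hU, mem_union, not_or] at hMU
    obtain ⟨⟨n1, n5⟩, ⟨o1, o5⟩⟩ := hMU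
    have hMN : M < N := by omega
    have q1 := K1 M hMN n1
    have q5 := K5 M hMN n5
    have r1 := L1 M hMN o1
    have r5 := L5 M hMN o5
    -- the data of the representation
    have hs := H5 m (by omega) b y y' hrep
    have hlm : Real.log m ^ 3 ≤ Real.log (2 * (N : ℝ)) ^ 3 := by
      have h0 : 0 ≤ Real.log m := Real.log_nonneg (by linarith)
      exact pow_le_pow_left₀ h0 (Real.log_le_log (by linarith) hm2') 3
    obtain ⟨w1, -, -, w2, w3, w4, w5⟩ := core (N := N) (κ := κ) (θ := θ)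
      (t := ((m - b : ℕ) : ℝ)) (s := ((y - y' : ℕ) : ℝ)) (m := m) (J := J)
      (L := Real.log m ^ 3) hN1 hκ hκ1 hθ1 hθ2 rfl rfl hX (Nat.cast_nonneg _) ht2
      (Nat.cast_nonneg _) hs (by linarith) hm1' hm2' (Nat.cast_nonneg _) hJle rfl
    have hb1 : b ≤ 6 * M := by
      have hbm : b < m := hrep.2.2.1
      have e1 : 6 * J + 11 ≤ m - b := by
        have : 6 * (J : ℝ) + 11 ≤ ((m - b : ℕ) : ℝ) := by linarith
        exact_mod_cast this
      omega
    have hb2 : 6 * M + 6 * J + 6 ≤ m := by omega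
    have hM20 : (N : ℝ) / 20 ≤ M := by
      have e1 : m ≤ 6 * M + 6 * J + 11 := by omega
      have e2 : (m : ℝ) ≤ 6 * M + 6 * J + 11 := by exact_mod_cast e1
      linarith
    have hMJN : M + J ≤ N := by omega
    have win := (h4 m b y y' J M _ _ hrep w5 (by linarith) w3 w4 hb1 hb2 rfl).1
    have big1 := H3 N (by omega) 1 J M (Or.inl rfl) hJ1 hM20 hMJN _ ((1 + θ) / 2 + 1 / 1000)
      (by linarith) (by linarith) w5 w2 q1 r1
    have big5 := H3 N (by omega) 5 J M (Or.inr rfl) hJ1 hM20 hMJN _ ((1 + θ) / 2 + 1 / 1000)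
      (by linarith) (by linarith) w5 w2 q5 r5
    have fin : 481 / 1000 * (J : ℝ) ≤
        2 * ((1 - ((1 + θ) / 2 + 1 / 1000) - 3 * (1 / 1000)) * J) := by
      have h0 : 0 ≤ (J : ℝ) * (511 / 1000 - θ) := mul_nonneg (Nat.cast_nonneg _) (by linarith)
      have e1 : 2 * ((1 - ((1 + θ) / 2 + 1 / 1000) - 3 * (1 / 1000)) * (J : ℝ)) =
          481 / 1000 * (J : ℝ) + (J : ℝ) * (511 / 1000 - θ) := by ring
      rw [e1]
      exact le_add_of_nonneg_right h0
    rw [← hY] at w1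
    generalize hcb1 : ((big 1 J M ((N : ℝ) ^ ((1 + θ) / 2 - κ / 20))).card : ℝ) = cb1 at *
    generalize hcb5 : ((big 5 J M ((N : ℝ) ^ ((1 + θ) / 2 - κ / 20))).card : ℝ) = cb5 at *
    clear H1 H2 H3 H4 H5 h1 h2 h3 h4 hrep K1 K5 L1 L5 q1 q5 r1 r5 hs hlm w2 w3 w4 w5 hcon
    have f1 := add_le_add big1 big5
    have f2 := f1.trans win
    linarith

end Pool.Agent.Y4.SF
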